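import Pool.Agent.H30.CP.Final

/-!
Every `k`-point pattern of integers is within Hausdorff distance `T` (depending on `k` only, up to the
colouring and the modulus) of an exact pattern of primes which occurs infinitely often.
-/

namespace Pool.Agent.Results.MP_8923e7_nt.CoarseTuples

theorem result {r k : ℕ} (hk : 0 < k) (c : ℕ → Fin r) (L s : ℕ) (hL : 0 < L)
    (hs : Nat.Coprime s L) :
    ∃ T : ℕ, ∀ x : Fin k → ℤ, ∃ (i : Fin r) (a : Fin k → ℤ) (Ω : Finset ℤ),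
      Function.Injective a ∧ (∀ j, |a j - x j| ≤ T ∧ a j ∈ Ω) ∧
      (∀ w ∈ Ω, (L : ℤ) ∣ w ∧ ∃ j, |w - x j| ≤ T) ∧
      ∀ D : ℕ, {N : ℕ | N ≡ s [MOD L] ∧ (∀ j, c ((N : ℤ) + a j).toNat = i) ∧
        ∀ b : ℤ, |b| ≤ D → (((N : ℤ) + b).toNat.Prime ↔ b ∈ Ω)}.Infinite :=
  Pool.Agent.H30.CP.coarse_tuples hk c L s hL hs

end Pool.Agent.Results.MP_8923e7_nt.CoarseTuples
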